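import Pool.Agent.MP_5f72fe_nt.H3.SpecC

/-! The part `1` modulo `3` of a form of level `3` lies in the span of the basic series. -/

namespace Pool.Agent.MP_5f72fe_nt.H18

open Complex Filter Topology
open scoped Real PowerSeries
open Pool.Agent.MP_5f72fe_nt.H3

theorem sm_le {c c' : ℕ → ℂ} (C : ℝ) (h : Sm c) (hle : ∀ n, ‖c' n‖ ≤ C * ‖c n‖) : Sm c' := by
  intro r h0 h1
  refine Summable.of_nonneg_of_le (fun n => by positivity) (fun n => ?_) ((h r h0 h1).mul_left C)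
  rw [← mul_assoc]
  exact mul_le_mul_of_nonneg_right (hle n) (by positivity)

theorem sm_add {c c' : ℕ → ℂ} (h : Sm c) (h' : Sm c') : Sm fun n => c n + c' n := by
  intro r h0 h1
  refine Summable.of_nonneg_of_le (fun n => by positivity) (fun n => ?_)
    ((h r h0 h1).add (h' r h0 h1))
  rw [← add_mul]
  exact mul_le_mul_of_nonneg_right (norm_add_le _ _) (by positivity)

theorem sm_par {c : ℕ → ℂ} (μ : ℕ) (h : Sm c) : Sm (par μ c) :=
  sm_le 1 h fun n => by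
    unfold par
    split_ifs <;> simp

theorem sm_cls {c : ℕ → ℂ} (h : Sm c) : Sm (cls1 c) :=
  sm_le 1 h fun n => by
    unfold cls1
    split_ifs <;> simp

theorem sm_up {d : ℕ → ℂ} (h : Sm d) : Sm (up 3 d) := by
  intro r h0 h1
  have hi : Function.Injective fun m : ℕ => 3 * m := fun a b hab => by
    simp only at hab
    omega
  rw [← hi.summable_iff]
  · refine (h (r ^ 3) (by positivity) (pow_lt_one₀ h0 h1 (by norm_num))).congr fun m => ?_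
    simp [up, pow_mul]
  · intro n hn
    have : ¬ 3 ∣ n := fun ⟨m, hm⟩ => hn ⟨m, hm.symm⟩
    simp [up, this]

theorem sm_flat (JH : RowJH) {k : ℕ} {c d : ℕ → ℂ} (hc : Sm c) (hd : Sm d) :
    Sm (flat k c d) := by
  have h1 : Sm fun n : ℕ =>
      (E (-(1 + n) / 3) * I ^ k + E ((1 + n) / 3) * (-I) ^ k) * c n := by
    refine sm_le 2 hc fun n => ?_
    rw [norm_mul]
    refine mul_le_mul_of_nonneg_right ((norm_add_le _ _).trans (le_of_eq ?_)) (norm_nonneg _)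
    have a : (-(1 + n : ℂ) / 3).im = 0 := by
      rw [show (-(1 + n : ℂ) / 3) = ((-(1 + n) / 3 : ℝ) : ℂ) by push_cast; ring, ofReal_im]
    have b : ((1 + n : ℂ) / 3).im = 0 := by
      rw [show ((1 + n : ℂ) / 3) = (((1 + n) / 3 : ℝ) : ℂ) by push_cast; ring, ofReal_im]
    rw [norm_mul, norm_mul, JH.norm, JH.norm, a, b]
    simp
    norm_num
  exact sm_le ‖(3 ^ k / (√3 : ℝ) : ℂ)‖ (sm_add (sm_up hd) h1) fun n => by
    unfold flat
    rw [norm_mul]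

theorem hasSum_ser (S : RowSER) {M : ℕ} {c : ℕ → ℂ} {τ : ℂ} (hM : 0 < M) (h : Sm c)
    (hτ : 0 < τ.im) : HasSum (fun n : ℕ => c n * E (n * τ / M)) (ser M c τ) :=
  (S.nsum M c τ hM h hτ).of_norm.hasSum

theorem sr_mul (S : RowSER) {F G : ℤ⟦X⟧} (hF : Sm (cz F)) (hG : Sm (cz G)) :
    Sm (cz (F * G)) ∧ ∀ τ : ℂ, 0 < τ.im → sr (F * G) τ = sr F τ * sr G τ := by
  obtain ⟨R, hR, hφ⟩ := S.ring
  refine ⟨(hR _).1 (R.mul_mem ((hR _).2 hF) ((hR _).2 hG)), fun τ hτ => ?_⟩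
  obtain ⟨φ, h⟩ := hφ τ hτ
  have := map_mul φ ⟨F, (hR _).2 hF⟩ ⟨G, (hR _).2 hG⟩
  rw [h, h, h] at this
  exact this

theorem sr_add (S : RowSER) {F G : ℤ⟦X⟧} (hF : Sm (cz F)) (hG : Sm (cz G)) :
    Sm (cz (F + G)) ∧ ∀ τ : ℂ, 0 < τ.im → sr (F + G) τ = sr F τ + sr G τ := by
  obtain ⟨R, hR, hφ⟩ := S.ring
  refine ⟨(hR _).1 (R.add_mem ((hR _).2 hF) ((hR _).2 hG)), fun τ hτ => ?_⟩
  obtain ⟨φ, h⟩ := hφ τ hτ
  have := map_add φ ⟨F, (hR _).2 hF⟩ ⟨G, (hR _).2 hG⟩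
  rw [h, h, h] at this
  exact this

theorem sr_sub (S : RowSER) {F G : ℤ⟦X⟧} (hF : Sm (cz F)) (hG : Sm (cz G)) :
    Sm (cz (F - G)) ∧ ∀ τ : ℂ, 0 < τ.im → sr (F - G) τ = sr F τ - sr G τ := by
  obtain ⟨R, hR, hφ⟩ := S.ring
  refine ⟨(hR _).1 (R.sub_mem ((hR _).2 hF) ((hR _).2 hG)), fun τ hτ => ?_⟩
  obtain ⟨φ, h⟩ := hφ τ hτ
  have := map_sub φ ⟨F, (hR _).2 hF⟩ ⟨G, (hR _).2 hG⟩
  rw [h, h, h] at this
  exact this

theorem sr_pow (S : RowSER) {F : ℤ⟦X⟧} (hF : Sm (cz F)) (n : ℕ) :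
    Sm (cz (F ^ n)) ∧ ∀ τ : ℂ, 0 < τ.im → sr (F ^ n) τ = sr F τ ^ n := by
  obtain ⟨R, hR, hφ⟩ := S.ring
  refine ⟨(hR _).1 (R.pow_mem ((hR _).2 hF) n), fun τ hτ => ?_⟩
  obtain ⟨φ, h⟩ := hφ τ hτ
  have := map_pow φ ⟨F, (hR _).2 hF⟩ n
  rw [h, h] at this
  exact this

theorem sr_H (S : RowSER) (IN : RowINT) (B : RowBASE) {μ : ℕ} (hμ : μ < 2) :
    Sm (cz (Hm μ)) ∧ ∀ τ : ℂ, 0 < τ.im →
      sr (Hm μ) τ = sr Aa τ ^ 2 * sr (Tm μ) τ - 3 * sr (Pm μ) τ := by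
  have e : Hm μ = Aa ^ 2 * Tm μ - (Pm μ + Pm μ + Pm μ) := by
    linear_combination IN.three μ hμ
  have hP := B.sm.2.2.2 μ hμ
  have h1 := sr_pow S B.sm.2.1 2
  have h2 := sr_mul S h1.1 (B.sm.1 μ hμ)
  have h3 := sr_add S hP hP
  have h4 := sr_add S h3.1 hP
  have h5 := sr_sub S h2.1 h4.1
  rw [e]
  refine ⟨h5.1, fun τ hτ => ?_⟩
  rw [h5.2 τ hτ, h4.2 τ hτ, h3.2 τ hτ, h2.2 τ hτ, h1.2 τ hτ]
  ring

theorem sm_D (S : RowSER) (B : RowBASE) : Sm (cz D6) :=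
  (sr_mul S (sr_mul S (B.sm.1 0 (by norm_num)) (B.sm.1 1 (by norm_num))).1
    (sr_sub S (sr_pow S (B.sm.1 0 (by norm_num)) 4).1 (sr_pow S (B.sm.1 1 (by norm_num)) 4).1).1).1

theorem sr_yb (S : RowSER) (B : RowBASE) (k i : ℕ) (b : Bool) :
    Sm (cz (yb k (i, b))) ∧ ∀ τ : ℂ, 0 < τ.im → sr (yb k (i, b)) τ =
      if b then sr Aa τ ^ (k - 3 - 3 * i) * sr Kk τ ^ (3 * i + 1) * (sr (Pm 0) τ + sr (Pm 1) τ)
      else sr Aa τ ^ (k - 1 - 3 * i) * sr Kk τ ^ (3 * i + 1) * (sr (Tm 0) τ + sr (Tm 1) τ) := by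
  have hK := sr_pow S B.sm.2.2.1 (3 * i + 1)
  cases b
  · have h1 := sr_pow S B.sm.2.1 (k - 1 - 3 * i)
    have h2 := sr_mul S h1.1 hK.1
    have h3 := sr_add S (B.sm.1 0 (by norm_num)) (B.sm.1 1 (by norm_num))
    have h4 := sr_mul S h2.1 h3.1
    refine ⟨h4.1, fun τ hτ => ?_⟩
    have := h4.2 τ hτ
    rw [h3.2 τ hτ, h2.2 τ hτ, h1.2 τ hτ, hK.2 τ hτ] at this
    exact this
  · have h1 := sr_pow S B.sm.2.1 (k - 3 - 3 * i)
    have h2 := sr_mul S h1.1 hK.1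
    have h3 := sr_add S (B.sm.2.2.2 0 (by norm_num)) (B.sm.2.2.2 1 (by norm_num))
    have h4 := sr_mul S h2.1 h3.1
    refine ⟨h4.1, fun τ hτ => ?_⟩
    have := h4.2 τ hτ
    rw [h3.2 τ hτ, h2.2 τ hτ, h1.2 τ hτ, hK.2 τ hτ] at this
    exact this

theorem ex_sup (S : RowSER) {F : ℤ⟦X⟧} {r : ℕ} (ρ : ℝ) (hρ : ρ = r / 12) (hF : Sm (cz F))
    (h : Sup 12 r F) : Ex ρ (sr F) ∧ Ld ρ (sr F) (cz F r) := by
  have := S.ex 12 r (cz F) (by norm_num) hF fun n hn => h n fun e => hn (by simp [cz, e])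
  rw [hρ]
  exact_mod_cast this

theorem ex_three (S : RowSER) {F : ℂ → ℂ} {ρ : ℝ} {l : ℂ} (σ : ℝ) (hσ : σ = 3 * ρ)
    (h : Ex ρ F ∧ Ld ρ F l) : Ex σ (fun τ => F (3 * τ)) ∧ Ld σ (fun τ => F (3 * τ)) l := by
  have := S.exScale ρ F 3 l (by norm_num) h.1 h.2
  rw [hσ]
  exact_mod_cast this

theorem hol_of_ex (JH : RowJH) {F : ℂ → ℂ} (h : Ex 0 F) : Hol1 F := by
  have e : (fun τ => F τ * E (-(((0 : ℝ) : ℂ) * τ))) = F := by
    funext τ
    have := JH.int 0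
    simp only [Int.cast_zero] at this
    simp [this]
  unfold Ex at h
  rwa [e] at h

/-- A quotient of a determinant by two nonvanishing functions. -/
theorem hol_quot (S : RowSER) (JH : RowJH) {a b c d D K : ℂ → ℂ} {ρa ρb ρc ρd ρD ρK : ℝ}
    {lD lK : ℂ} (x : ℂ) (ha : Ex ρa a) (hb : Ex ρb b) (hc : Ex ρc c) (hd : Ex ρd d)
    (hD : Ex ρD D ∧ Ld ρD D lD) (hK : Ex ρK K ∧ Ld ρK K lK) (hlD : lD ≠ 0) (hlK : lK ≠ 0)
    (nD : ∀ τ : ℂ, 0 < τ.im → D τ ≠ 0) (nK : ∀ τ : ℂ, 0 < τ.im → K τ ≠ 0)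
    (e1 : ρc + ρd = ρa + ρb) (e2 : ρa + ρb - ρD - ρK = 0) :
    Hol1 fun τ => (x * (a τ * b τ) + -x * (c τ * d τ)) / D τ / K τ := by
  have h1 := S.exMul _ _ _ _ ha hb
  have h2 := S.exMul _ _ _ _ hc hd
  rw [e1] at h2
  have h3 := S.exAdd _ _ _ x (-x) h1 h2
  have h4 := S.exDiv _ _ _ _ _ h3 hD.1 hD.2 hlD nD
  have h5 := S.exDiv _ _ _ _ _ h4 hK.1 hK.2 hlK nK
  rw [e2] at h5
  exact hol_of_ex JH h5

theorem ld_b (S : RowSER) (JH : RowJH) (IN : RowINT) (B : RowBASE) :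
    Ex 0 (fun τ => 1 * sr Aa (3 * τ) + -3 * sr Kk (3 * τ)) ∧
      Ld 0 (fun τ => 1 * sr Aa (3 * τ) + -3 * sr Kk (3 * τ)) 1 := by
  have hA := ex_three S 0 (by norm_num) (ex_sup S 0 (by norm_num) B.sm.2.1 IN.supA.1)
  have hK := ex_three S (0 + (1 : ℕ)) (by norm_num)
    (ex_sup S (4 / 12) (by norm_num) B.sm.2.2.1 IN.supK.1)
  refine ⟨S.exAdd _ _ _ _ _ hA.1 (S.exSub _ _ 1 hK.1), ?_⟩
  have h0 : Ld (-1) (fun _ => 1) 0 := by
    unfold Ld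
    rw [tendsto_zero_iff_norm_tendsto_zero]
    have : Tendsto (fun τ : ℂ => Real.exp (-(2 * π * τ.im))) (comap Complex.im atTop) (𝓝 0) :=
      Real.tendsto_exp_neg_atTop_nhds_zero.comp
        (tendsto_comap.const_mul_atTop (by positivity : (0 : ℝ) < 2 * π))
    refine this.congr fun τ => ?_
    rw [one_mul, JH.norm]
    simp
  have h1 := S.ldMul _ _ _ _ _ _ hK.2 h0
  have e : (0 + (1 : ℕ) : ℝ) + -1 = 0 := by norm_num
  rw [e, mul_zero] at h1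
  have h2 := hA.2
  have eA : cz Aa 0 = 1 := by simp only [cz, IN.supA.2, Int.cast_one]
  rw [eA] at h2
  unfold Ld at h1 h2 ⊢
  have h3 := h2.add (h1.const_mul (-3))
  rw [mul_zero, add_zero] at h3
  exact h3.congr fun τ => by ring

theorem alg1 {s t J D A K g0 g1 H0 H1 τ : ℂ} {m : ℕ} (hs : s ^ 2 = 2) (ht : t ≠ 0) (hJ : J ≠ 0)
    (hD : D ≠ 0) (hb : A - 3 * K ≠ 0) (e : τ ^ (m + 2) * (-I) ^ (m + 2) = J ^ (2 * (m + 2))) :
    (-1 / 6 * (1 * J ^ (2 * (m + 3) + 1) * ((g0 + (-1) ^ 0 * g1) / s) *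
        (-(t * J) ^ 5 * ((H0 + (-1) ^ 1 * H1) / s))) +
      -(-1 / 6) * (1 * J ^ (2 * (m + 3) + 1) * ((g0 + (-1) ^ 1 * g1) / s) *
        (-(t * J) ^ 5 * ((H0 + (-1) ^ 0 * H1) / s)))) / ((t * J) ^ 6 * D) /
      (3 * J ^ 2 * (A - 3 * K) / (3 * t)) =
    τ ^ (m + 2) * (((-I) ^ (m + 2) * (-1 / 6) * (g0 * H1) +
      -((-I) ^ (m + 2) * (-1 / 6)) * (g1 * H0)) / D / (1 * A + -3 * K)) := by
  have a : (-1 / 6 * (1 * J ^ (2 * (m + 3) + 1) * ((g0 + (-1) ^ 0 * g1) / s) *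
        (-(t * J) ^ 5 * ((H0 + (-1) ^ 1 * H1) / s))) +
      -(-1 / 6) * (1 * J ^ (2 * (m + 3) + 1) * ((g0 + (-1) ^ 1 * g1) / s) *
        (-(t * J) ^ 5 * ((H0 + (-1) ^ 0 * H1) / s)))) =
      -1 / 3 * J ^ (2 * (m + 3) + 1) * (t * J) ^ 5 * (g0 * H1 - g1 * H0) / s ^ 2 := by ring
  have b : τ ^ (m + 2) * (((-I) ^ (m + 2) * (-1 / 6) * (g0 * H1) +
      -((-I) ^ (m + 2) * (-1 / 6)) * (g1 * H0)) / D / (1 * A + -3 * K)) =
      τ ^ (m + 2) * (-I) ^ (m + 2) * (-1 / 6 * (g0 * H1 - g1 * H0) / D / (A - 3 * K)) := by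
    rw [show 1 * A + -3 * K = A - 3 * K by ring]
    ring
  rw [a, b, e, hs]
  generalize A - 3 * K = b at hb
  field_simp
  ring

theorem alg2 {s t J D A K g0 g1 T0 T1 τ : ℂ} {m : ℕ} (hs : s ^ 2 = 2) (ht : t ^ 2 = 3)
    (hJ : J ≠ 0) (hD : D ≠ 0) (hb : A - 3 * K ≠ 0) (e : τ ^ m * (-I) ^ m = J ^ (2 * m)) :
    (-1 / 6 * (t * J * ((T0 + (-1) ^ 0 * T1) / s) *
        (1 * J ^ (2 * (m + 3) + 1) * ((g0 + (-1) ^ 1 * g1) / s))) +
      -(-1 / 6) * (t * J * ((T0 + (-1) ^ 1 * T1) / s) *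
        (1 * J ^ (2 * (m + 3) + 1) * ((g0 + (-1) ^ 0 * g1) / s)))) / ((t * J) ^ 6 * D) /
      (3 * J ^ 2 * (A - 3 * K) / (3 * t)) =
    τ ^ m * (((-I) ^ m * (1 / 54) * (T0 * g1) +
      -((-I) ^ m * (1 / 54)) * (T1 * g0)) / D / (1 * A + -3 * K)) := by
  have a : (-1 / 6 * (t * J * ((T0 + (-1) ^ 0 * T1) / s) *
        (1 * J ^ (2 * (m + 3) + 1) * ((g0 + (-1) ^ 1 * g1) / s))) +
      -(-1 / 6) * (t * J * ((T0 + (-1) ^ 1 * T1) / s) *
        (1 * J ^ (2 * (m + 3) + 1) * ((g0 + (-1) ^ 0 * g1) / s)))) =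
      1 / 3 * J ^ (2 * (m + 3) + 1) * (t * J) * (T0 * g1 - T1 * g0) / s ^ 2 := by ring
  have b : τ ^ m * (((-I) ^ m * (1 / 54) * (T0 * g1) +
      -((-I) ^ m * (1 / 54)) * (T1 * g0)) / D / (1 * A + -3 * K)) =
      τ ^ m * (-I) ^ m * (1 / 54 * (T0 * g1 - T1 * g0) / D / (A - 3 * K)) := by
    rw [show 1 * A + -3 * K = A - 3 * K by ring]
    ring
  have ht0 : t ≠ 0 := fun h => by
    rw [h] at ht
    norm_num at ht
  have t6 : (t * J) ^ 6 = 9 * t ^ 2 * J ^ 6 := by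
    rw [mul_pow, show t ^ 6 = (t ^ 2) ^ 2 * t ^ 2 by ring, ht]
    norm_num
  rw [a, b, e, hs, t6]
  generalize A - 3 * K = b at hb
  field_simp
  ring

theorem rowCLS : OfCLS := by
  intro S JH IN B NZ MF F9 k c d hk hV
  obtain ⟨hc, hd, sc, sd, hSL⟩ := id hV
  have hF := F9 k c d hV
  have z2 : (0 : ℕ) < 2 := by norm_num
  have o2 : (1 : ℕ) < 2 := by norm_num
  -- expansions
  have h0 : Ex (4 / 12) (ser 12 (par 0 (cls1 c))) := by
    have := (S.ex 12 4 _ (by norm_num) (sm_par 0 (sm_cls hc)) fun n hn => by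
      unfold par cls1 at hn
      split_ifs at hn with a b
      · have := sc n hn
        exact ⟨(n - 4) / 12, by omega⟩
      all_goals exact absurd rfl hn).1
    exact_mod_cast this
  have h1 : Ex (7 / 12) (ser 12 (par 1 (cls1 c))) := by
    have := (S.ex 12 7 _ (by norm_num) (sm_par 1 (sm_cls hc)) fun n hn => by
      unfold par cls1 at hn
      split_ifs at hn with a b
      · have := sc n hn
        exact ⟨(n - 7) / 12, by omega⟩
      all_goals exact absurd rfl hn).1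
    exact_mod_cast this
  have sf : ∀ n, flat k c d n ≠ 0 → n % 4 = 0 ∨ n % 4 = 3 := by
    intro n hn
    by_contra hcon
    have a : c n = 0 := by
      by_contra a
      exact hcon (sc n a)
    have b : up 3 d n = 0 := by
      unfold up
      split_ifs with h3
      · by_contra b
        have := sd _ b
        omega
      · rfl
    exact hn (by simp [flat, a, b])
  have g0 : Ex 0 (ser 4 (par 0 (flat k c d))) := by
    have := (S.ex 4 0 _ (by norm_num) (sm_par 0 (sm_flat JH (k := k) hc hd)) fun n hn => by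
      unfold par at hn
      split_ifs at hn with a
      · have := sf n hn
        exact ⟨n / 4, by omega⟩
      · exact absurd rfl hn).1
    simpa using this
  have g1 : Ex (3 / 4) (ser 4 (par 1 (flat k c d))) := by
    have := (S.ex 4 3 _ (by norm_num) (sm_par 1 (sm_flat JH (k := k) hc hd)) fun n hn => by
      unfold par at hn
      split_ifs at hn with a
      · have := sf n hn
        exact ⟨(n - 3) / 4, by omega⟩
      · exact absurd rfl hn).1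
    exact_mod_cast this
  have eT0 := ex_sup S 0 (by norm_num) (B.sm.1 0 z2) IN.supT.1
  have eT1 := ex_sup S (3 / 12) (by norm_num) (B.sm.1 1 o2) IN.supT.2.1
  have eH0 := ex_sup S 0 (by norm_num) (sr_H S IN B z2).1 IN.supH.1
  have eH1 := ex_sup S (3 / 12) (by norm_num) (sr_H S IN B o2).1 IN.supH.2
  have eD := ex_sup S (3 / 12) (by norm_num) (sm_D S B) IN.supD.1
  have eK := ex_sup S (4 / 12) (by norm_num) B.sm.2.2.1 IN.supK.1
  have lD : cz D6 3 ≠ 0 := by simp [cz, IN.supD.2]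
  have lK : cz Kk 4 ≠ 0 := by simp [cz, IN.supK.2]
  have im3 : ∀ τ : ℂ, 0 < τ.im → 0 < (3 * τ).im := fun τ hτ => by simpa using hτ
  have nb : ∀ τ : ℂ, 0 < τ.im → 1 * sr Aa (3 * τ) + -3 * sr Kk (3 * τ) ≠ 0 := fun τ hτ h =>
    (NZ.neK _ (im3 τ hτ)).2 (by linear_combination h)
  have HF := hol_quot S JH (-1 / 6) h0 eH1.1 h1 eH0.1 eD eK lD lK NZ.neD
    (fun τ hτ => (NZ.neK τ hτ).1) (by norm_num) (by norm_num)
  have HF' := hol_quot S JH (-1 / 6) eT0.1 h1 eT1.1 h0 eD eK lD lK NZ.neD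
    (fun τ hτ => (NZ.neK τ hτ).1) (by norm_num) (by norm_num)
  have HG := hol_quot S JH ((-I) ^ (k - 1) * (-1 / 6)) g0 (ex_three S (3 / 4) (by norm_num) eH1).1
    g1 (ex_three S 0 (by norm_num) eH0).1 (ex_three S (3 / 4) (by norm_num) eD) (ld_b S JH IN B)
    lD one_ne_zero (fun τ hτ => NZ.neD _ (im3 τ hτ)) nb (by norm_num) (by norm_num)
  have HG' := hol_quot S JH ((-I) ^ (k - 3) * (1 / 54)) (ex_three S 0 (by norm_num) eT0).1 g1
    (ex_three S (3 / 4) (by norm_num) eT1).1 g0 (ex_three S (3 / 4) (by norm_num) eD)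
    (ld_b S JH IN B)
    lD one_ne_zero (fun τ hτ => NZ.neD _ (im3 τ hτ)) nb (by norm_num) (by norm_num)
  obtain ⟨m, rfl⟩ : ∃ m, k = m + 3 := ⟨k - 3, by omega⟩
  have r2 : ((√2 : ℝ) : ℂ) ^ 2 = 2 := by
    rw [← ofReal_pow, Real.sq_sqrt (by norm_num)]
    norm_num
  have r3 : ((√3 : ℝ) : ℂ) ^ 2 = 3 := by
    rw [← ofReal_pow, Real.sq_sqrt (by norm_num)]
    norm_num
  have n2 : ((√2 : ℝ) : ℂ) ≠ 0 := fun h => by
    rw [h] at r2
    norm_num at r2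
  have n3 : ((√3 : ℝ) : ℂ) ≠ 0 := fun h => by
    rw [h] at r3
    norm_num at r3
  have j3 : ∀ τ : ℂ, Jh (3 * τ) = (√3 : ℝ) * Jh τ := fun τ => by
    have := JH.scale 3 τ (by norm_num)
    exact_mod_cast this
  have e1 : ∀ τ : ℂ, -I * (3 * τ) = 3 * Jh τ ^ 2 := fun τ => by
    rw [JH.sq]
    ring
  have e2 : ∀ (τ : ℂ) (n : ℕ), τ ^ n * (-I) ^ n = Jh τ ^ (2 * n) := fun τ n => by
    rw [pow_mul, JH.sq, mul_pow, mul_comm]
  obtain ⟨x, hx⟩ := MF ((m + 2 : ℕ) : ℤ) _ _ HF HG fun τ hτ => by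
    have a0 := hF τ hτ 0 z2
    have a1 := hF τ hτ 1 o2
    push_cast at a0 a1
    simp only [a0, a1, NZ.lawH _ (im3 τ hτ) 0 z2, NZ.lawH _ (im3 τ hτ) 1 o2,
      NZ.lawD _ (im3 τ hτ), B.lawK _ (im3 τ hτ), j3, zpow_natCast, Nat.add_succ_sub_one, e1]
    exact alg1 r2 n3 (JH.jne τ hτ) (NZ.neD _ (im3 τ hτ)) (NZ.neK _ (im3 τ hτ)).2 (e2 τ _)
  obtain ⟨y, hy⟩ := MF ((m : ℕ) : ℤ) _ _ HF' HG' fun τ hτ => by
    have a0 := hF τ hτ 0 z2
    have a1 := hF τ hτ 1 o2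
    push_cast at a0 a1
    simp only [a0, a1, B.lawT _ (im3 τ hτ) 0 z2, B.lawT _ (im3 τ hτ) 1 o2,
      NZ.lawD _ (im3 τ hτ), B.lawK _ (im3 τ hτ), j3, zpow_natCast, Nat.add_sub_cancel, e1]
    exact alg2 r2 r3 (JH.jne τ hτ) (NZ.neD _ (im3 τ hτ)) (NZ.neK _ (im3 τ hτ)).2 (e2 τ _)
  let X : ℕ × Bool → ℂ := fun p =>
    if p.2 then (if 3 * p.1 ≤ m then -3 * y p.1 else 0)
    else (if 3 * p.1 ≤ m + 2 then x p.1 else 0) + if 3 * p.1 ≤ m then y p.1 else 0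
  refine ⟨fun p => X (p.1, p.2), sub_eq_zero.1 (S.uniq 12 _ 0 (by norm_num) fun τ hτ => ?_)⟩
  have s0 := hasSum_ser S (M := 12) (by norm_num) (sm_par 0 (sm_cls hc)) hτ
  have s1 := hasSum_ser S (M := 12) (by norm_num) (sm_par 1 (sm_cls hc)) hτ
  have s2 := hasSum_sum (s := (Finset.univ : Finset (Fin (m + 3) × Bool))) fun p _ =>
    (hasSum_ser S (M := 12) (by norm_num) (sr_yb S B (m + 3) p.1 p.2).1 hτ).mul_left (X (p.1, p.2))
  have s3 := (s0.add s1).sub s2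
  have key : ser 12 (par 0 (cls1 c)) τ + ser 12 (par 1 (cls1 c)) τ -
      ∑ p : Fin (m + 3) × Bool, X (p.1, p.2) * ser 12 (cz (yb (m + 3) (p.1, p.2))) τ = 0 := by
    have hx' := hx τ hτ
    have hy' := hy τ hτ
    simp only [Int.toNat_natCast, Finset.sum_filter] at hx' hy'
    have f1 : ∑ p : Fin (m + 3) × Bool, X (p.1, p.2) * ser 12 (cz (yb (m + 3) (p.1, p.2))) τ =
        ∑ i ∈ Finset.range (m + 3), (X (i, true) * sr (yb (m + 3) (i, true)) τ +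
          X (i, false) * sr (yb (m + 3) (i, false)) τ) := by
      rw [Fintype.sum_prod_type, ← Fin.sum_univ_eq_sum_range (fun i => X (i, true) *
        sr (yb (m + 3) (i, true)) τ + X (i, false) * sr (yb (m + 3) (i, false)) τ)]
      exact Finset.sum_congr rfl fun i _ => Fintype.sum_bool _
    have f2 : ∀ i : ℕ, X (i, true) * sr (yb (m + 3) (i, true)) τ +
        X (i, false) * sr (yb (m + 3) (i, false)) τ =
        (if 3 * (i : ℤ) ≤ (m + 2 : ℕ) then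
          x i * (sr Aa τ ^ (m + 2 - 3 * i) * sr Kk τ ^ (3 * i)) else 0) *
            (sr Kk τ * (sr (Tm 0) τ + sr (Tm 1) τ)) +
        (if 3 * (i : ℤ) ≤ (m : ℕ) then
          y i * (sr Aa τ ^ (m - 3 * i) * sr Kk τ ^ (3 * i)) else 0) *
            (sr Kk τ * (sr (Hm 0) τ + sr (Hm 1) τ)) := by
      intro i
      rw [(sr_yb S B _ _ _).2 τ hτ, (sr_yb S B _ _ _).2 τ hτ, (sr_H S IN B z2).2 τ hτ,
        (sr_H S IN B o2).2 τ hτ]
      simp only [X, if_true, Bool.false_eq_true, if_false, Nat.add_succ_sub_one,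
        Nat.add_sub_cancel]
      by_cases u : 3 * i ≤ m
      · rw [if_pos u, if_pos u, if_pos (by omega), if_pos (by omega), if_pos (by omega),
          show m + 2 - 3 * i = m - 3 * i + 2 by omega]
        ring
      · rw [if_neg u, if_neg u, if_neg (show ¬ 3 * (i : ℤ) ≤ (m : ℕ) by omega)]
        by_cases v : 3 * i ≤ m + 2
        · rw [if_pos v, if_pos (by omega)]
          ring
        · rw [if_neg v, if_neg (by omega)]
          ring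
    have f3 : ∑ i ∈ Finset.range (m + 3), (if 3 * (i : ℤ) ≤ (m : ℕ) then
        y i * (sr Aa τ ^ (m - 3 * i) * sr Kk τ ^ (3 * i)) else 0) =
        ∑ i ∈ Finset.range (m + 1), (if 3 * (i : ℤ) ≤ (m : ℕ) then
          y i * (sr Aa τ ^ (m - 3 * i) * sr Kk τ ^ (3 * i)) else 0) := by
      rw [Finset.sum_range_succ _ (m + 2), Finset.sum_range_succ _ (m + 1), if_neg (by omega),
        if_neg (by omega), add_zero, add_zero]
    rw [f1, Finset.sum_congr rfl fun i _ => f2 i, Finset.sum_add_distrib, ← Finset.sum_mul,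
      ← Finset.sum_mul, f3, ← hx', ← hy']
    have hD := NZ.neD τ hτ
    have hK := (NZ.neK τ hτ).1
    have hdet := NZ.det τ hτ
    field_simp
    linear_combination (ser 12 (par 0 (cls1 c)) τ + ser 12 (par 1 (cls1 c)) τ) * hdet
  rw [key] at s3
  refine s3.congr_fun fun n => ?_
  have hp : cls1 c n = par 0 (cls1 c) n + par 1 (cls1 c) n := by
    unfold par
    rcases Nat.mod_two_eq_zero_or_one n with h | h <;> simp [h]
  simp only [Pi.sub_apply, Finset.sum_apply, Pi.smul_apply, smul_eq_mul, sub_mul, Finset.sum_mul,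
    mul_assoc]
  rw [hp, add_mul]

end Pool.Agent.MP_5f72fe_nt.H18
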